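import Pool.Agent.Helper18.EN.Cls
import Pool.Agent.Helper18.EP.Fin
import Pool.Agent.Helper46.EN.Zone2
import Pool.Agent.Helper72.EN.Long3

/-! Project EP: the class estimate at the scale `26 / |a|`. -/

set_option autoImplicit false
open Set Metric Filter Topology MeasureTheory

namespace Pool.Agent.Helper18.EP

open Pool.Agent.Helper82.EN Helper95.EN
open Pool.Agent.Helper18.UC Pool.Agent.Helper18.UY
open Pool.Agent.Helper18.EN (pstep class_bound in_of_pre)

/-- the set of points of a line with a given itinerary is measurable -/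
lemma meas_class (a b t : ℝ) {B : ℝ} (hB : 0 < B) {W : Set (ℝ × ℝ)} (hW : MeasurableSet W) (n : ℕ)
    (Z J : Finset ℕ) : MeasurableSet {s : ℝ | s ∈ Icc (0 : ℝ) 1 ∧
      (∀ j < n, (F a)^[j] (ln b t s) ∈ W ↔ j ∈ Z) ∧
      ∀ l ∈ Finset.Icc 1 n, Long a b B l t s ↔ l ∈ J} := by
  have hln : Continuous fun s : ℝ => ln b t s := by
    unfold ln
    fun_prop
  have h1 : ∀ j : ℕ, MeasurableSet {s : ℝ | (F a)^[j] (ln b t s) ∈ W ↔ j ∈ Z} := by
    intro j
    have hm : Measurable fun s : ℝ => (F a)^[j] (ln b t s) :=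
      ((F_cont a).iterate j).measurable.comp hln.measurable
    by_cases hj : j ∈ Z
    · have e : {s : ℝ | (F a)^[j] (ln b t s) ∈ W ↔ j ∈ Z} =
          (fun s : ℝ => (F a)^[j] (ln b t s)) ⁻¹' W := by
        ext s
        simp [hj]
      rw [e]
      exact hm hW
    · have e : {s : ℝ | (F a)^[j] (ln b t s) ∈ W ↔ j ∈ Z} =
          (fun s : ℝ => (F a)^[j] (ln b t s)) ⁻¹' Wᶜ := by
        ext s
        simp [hj]
      rw [e]
      exact hm hW.compl
  have h2 : ∀ l : ℕ, MeasurableSet {s : ℝ | Long a b B l t s ↔ l ∈ J} := by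
    intro l
    have hm : MeasurableSet {s : ℝ | Long a b B l t s} := by
      have h3 := (isClosed_long a b hB l).measurableSet
      have h4 : Measurable fun s : ℝ => ((s, t) : ℝ × ℝ) := measurable_id.prodMk measurable_const
      exact h4 h3
    by_cases hl : l ∈ J
    · have e : {s : ℝ | Long a b B l t s ↔ l ∈ J} = {s : ℝ | Long a b B l t s} := by
        ext s
        simp [hl]
      rw [e]
      exact hm
    · have e : {s : ℝ | Long a b B l t s ↔ l ∈ J} = {s : ℝ | Long a b B l t s}ᶜ := by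
        ext s
        simp [hl]
      rw [e]
      exact hm.compl
  have e : {s : ℝ | s ∈ Icc (0 : ℝ) 1 ∧
      (∀ j < n, (F a)^[j] (ln b t s) ∈ W ↔ j ∈ Z) ∧
      ∀ l ∈ Finset.Icc 1 n, Long a b B l t s ↔ l ∈ J} =
      Icc (0 : ℝ) 1 ∩ ((⋂ j ∈ Finset.range n, {s : ℝ | (F a)^[j] (ln b t s) ∈ W ↔ j ∈ Z}) ∩
        ⋂ l ∈ Finset.Icc 1 n, {s : ℝ | Long a b B l t s ↔ l ∈ J}) := by
    ext s
    simp only [mem_inter_iff, mem_iInter, mem_ofPred_eq, Finset.mem_range]
  rw [e]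
  refine measurableSet_Icc.inter (MeasurableSet.inter ?_ ?_)
  · exact MeasurableSet.biInter (Finset.countable_toSet _) fun j _ => h1 j
  · exact MeasurableSet.biInter (Finset.countable_toSet _) fun l _ => h2 l

/-- the times at which nothing is known about the critical points -/
def Jx (n : ℕ) (Z J : Finset ℕ) : Finset ℕ :=
  Finset.Icc (n - 2) n ∪ (Z.image (· - 1) ∪ Z.image (· - 2)) ∪ (J.image (· - 2) ∪ J.image (· - 3))

lemma card_Jx (n : ℕ) (Z J : Finset ℕ) : (Jx n Z J).card ≤ 3 + 2 * Z.card + 2 * J.card := by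
  unfold Jx
  have h1 : (Finset.Icc (n - 2) n).card ≤ 3 := by
    rw [Nat.card_Icc]
    omega
  have h2 : (Z.image (· - 1)).card ≤ Z.card := Finset.card_image_le
  have h3 : (Z.image (· - 2)).card ≤ Z.card := Finset.card_image_le
  have h4 : (J.image (· - 2)).card ≤ J.card := Finset.card_image_le
  have h5 : (J.image (· - 3)).card ≤ J.card := Finset.card_image_le
  have h6 := Finset.card_union_le (Finset.Icc (n - 2) n ∪ (Z.image (· - 1) ∪ Z.image (· - 2)))
    (J.image (· - 2) ∪ J.image (· - 3))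
  have h7 := Finset.card_union_le (Finset.Icc (n - 2) n) (Z.image (· - 1) ∪ Z.image (· - 2))
  have h8 := Finset.card_union_le (Z.image (· - 1)) (Z.image (· - 2))
  have h9 := Finset.card_union_le (J.image (· - 2)) (J.image (· - 3))
  omega

lemma notMem_Jx {n l : ℕ} {Z J : Finset ℕ} (hl : l ≤ n) (h : l ∉ Jx n Z J) :
    l + 3 ≤ n ∧ l + 1 ∉ Z ∧ l + 2 ∉ Z ∧ l + 2 ∉ J ∧ l + 3 ∉ J := by
  unfold Jx at h
  simp only [Finset.mem_union, Finset.mem_Icc, Finset.mem_image, not_or, not_exists, not_and] at h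
  obtain ⟨⟨h1, h2, h3⟩, h4, h5⟩ := h
  refine ⟨?_, fun hc => h2 _ hc (by omega), fun hc => h3 _ hc (by omega), fun hc => h4 _ hc (by omega),
    fun hc => h5 _ hc (by omega)⟩
  by_contra hcon
  exact h1 (by omega) hl

theorem class_est {a b : ℝ} (ha : 10 ^ 20 ≤ |a|) (hb : 0 ≤ b) (hb1 : b ≤ 1) :
    ∃ K D : ℝ, 0 ≤ K ∧ 1 ≤ D ∧
      ClassEst a b 100 (zn a (4 * 10 ^ 12 * |a|)) (|a| ^ 5) K D := by
  have ha0 : 0 < |a| := by linarith [show (0:ℝ) < 10 ^ 20 by norm_num]
  have ha1 : 1 ≤ |a| := by linarith [show (1:ℝ) ≤ 10 ^ 20 by norm_num]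
  set r : ℝ := 26 / |a| with hr
  have hr0 : 0 < r := by positivity
  have hra : r * |a| = 26 := div_mul_cancel₀ _ ha0.ne'
  have hr1 : r ≤ 1 / 100 := by
    rw [hr, div_le_div_iff₀ ha0 (by norm_num)]
    linarith
  have h5r : (5 * r) * |a| = 130 := by rw [mul_assoc, hra]; norm_num
  have hR2 : Rad2 a (5 * r) := ⟨by rw [h5r]; norm_num, by linarith, by linarith⟩
  obtain ⟨N, hN1, hNa, hN⟩ := pstep Pool.Agent.Helper46.EN.hurwitzLocal a hr0
  have hNa' := hNa ha1
  have hN1' : (1 : ℝ) ≤ N := by exact_mod_cast hN1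
  set E : ℝ := 2 * (2 * N) with hE
  have hE1 : 1 ≤ E := by rw [hE]; linarith
  have hEa : E ≤ |a| ^ 2 := by
    have h1 : E ≤ 2560000 * |a| + 100 := by rw [hE]; linarith
    nlinarith
  set K : ℝ := 54 * (1 + r) * E ^ 3 with hK
  refine ⟨K, E ^ 2, by positivity, one_le_pow₀ hE1, ?_⟩
  intro t n c Z J hZ hJ
  rcases Nat.eq_zero_or_pos n with hn | hn
  · subst hn
    have hZe : Z = ∅ := Finset.subset_empty.1 (by simpa using hZ)
    have hJe : J = ∅ := Finset.subset_empty.1 (by simpa using hJ)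
    subst hZe
    subst hJe
    calc volume _ ≤ volume (Icc (0:ℝ) 1) := measure_mono fun s hs => hs.1
      _ = ENNReal.ofReal 1 := by rw [Real.volume_Icc]; norm_num
      _ ≤ _ := by
        refine ENNReal.ofReal_le_ofReal ?_
        simp only [Finset.card_empty, pow_zero, mul_one, Nat.cast_zero, mul_zero, neg_zero,
          Real.exp_zero]
        have h1 : 1 ≤ E ^ 3 := one_le_pow₀ hE1
        rw [hK]
        nlinarith
  -- the orbit
  have hO := Pool.Agent.Helper72.EN.orb_xc (a := a) (t := t) hb hb1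
  have hbd : ∀ (k : ℕ) (s : ℝ), Bornology.IsBounded (cmp (xc a b t (k + 1)) (s : ℂ) (5 * r)) := by
    intro k s
    exact Pool.Agent.Helper72.EN.cp_boundedG hO hR2.rad s k
  have hosc : ∀ (k : ℕ) (s : ℝ), ∀ z ∈ cmp (xc a b t (k + 2)) (s : ℂ) (5 * r),
      ‖xc a b t (k + 1) z - xc a b t (k + 1) s‖ < r / 2 := by
    intro k s z hz
    have h1 := Pool.Agent.Helper72.EN.smallG hO hR2.rad s k hz
    refine h1.trans_le ?_
    rw [Real.sqrt_le_left (by linarith)]
    rw [div_le_iff₀ ha0]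
    have : (r / 2) ^ 2 * |a| = r * (r * |a|) / 4 := by ring
    rw [this, hra]
    linarith
  set W := zn a (4 * 10 ^ 12 * |a|) with hW
  set S : Set ℝ := {s : ℝ | s ∈ Icc (0 : ℝ) 1 ∧
      (∀ j < n, (F a)^[j] (ln b t s) ∈ W ↔ j ∈ Z) ∧
      ∀ l ∈ Finset.Icc 1 n, Long a b 100 l t s ↔ l ∈ J} with hS
  have hSm : MeasurableSet S :=
    meas_class a b t (by norm_num) (Pool.Agent.Helper46.EN.zone_zn2 a _).meas n Z J
  have hS1 : S ⊆ Icc 0 1 := fun s hs => hs.1
  -- outside the zone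
  have hout : ∀ j < n, j ∉ Z → ∀ s ∈ S, 4 * 10 ^ 12 * |a| ≤
      |vv a ((F a)^[j] (ln b t s)).1| * |vv a ((F a)^[j] (ln b t s)).2| := by
    intro j hj hjZ s hs
    have h1 : (F a)^[j] (ln b t s) ∉ W := fun h => hjZ ((hs.2.1 j hj).1 h)
    have h2 : ¬ |vv a ((F a)^[j] (ln b t s)).1| * |vv a ((F a)^[j] (ln b t s)).2| <
      4 * 10 ^ 12 * |a| := h1
    exact not_lt.1 h2
  have hsnd : ∀ (j : ℕ) (s : ℝ), ((F a)^[j + 1] (ln b t s)).2 = ((F a)^[j] (ln b t s)).1 := by
    intro j s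
    rw [Function.iterate_succ_apply']
    rfl
  have hM : 8 * r + 1 ≤ ((2 : ℕ) : ℝ) := by
    push_cast
    linarith
  have hmain := class_bound (a := a) (b := b) (t := t) hr0 hn hSm hS1 hbd
    (C := 2 + 4 * ((2 : ℕ) : ℝ)) (D := 2 * N)
    (by norm_num) (by linarith) Z (Jx n Z J) ?_ ?_ ?_ ?_ (L := Real.exp (c * n)) (Real.exp_pos _)
  · refine (measure_mono ?_).trans (hmain.trans (ENNReal.ofReal_le_ofReal ?_))
    · rintro s ⟨h1, h2, h3, h4⟩
      exact ⟨⟨h1, h3, h4⟩, h2⟩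
    · rw [Real.exp_neg, ← div_eq_mul_inv]
      refine div_le_div_of_nonneg_right ?_ (Real.exp_pos _).le
      have h2 : (2 * (2 + 4 * ((2 : ℕ) : ℝ))) ^ Z.card * (E ^ 2) ^ Z.card ≤ (|a| ^ 5) ^ Z.card := by
        rw [← mul_pow]
        refine pow_le_pow_left₀ (by positivity) ?_ _
        have h3 : E ^ 2 ≤ (|a| ^ 2) ^ 2 := pow_le_pow_left₀ (by linarith) hEa 2
        have h4 : (2 * (2 + 4 * ((2 : ℕ) : ℝ))) ≤ |a| := by
          push_cast
          linarith
        calc (2 * (2 + 4 * ((2 : ℕ) : ℝ))) * E ^ 2 ≤ |a| * (|a| ^ 2) ^ 2 :=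
              mul_le_mul h4 h3 (by positivity) ha0.le
          _ = |a| ^ 5 := by ring
      have h1' : (2 * (2 * (N : ℝ))) ^ (Jx n Z J).card ≤ E ^ 3 * (E ^ 2) ^ Z.card * (E ^ 2) ^ J.card := by
        rw [← hE]
        calc E ^ (Jx n Z J).card ≤ E ^ (3 + 2 * Z.card + 2 * J.card) :=
              pow_le_pow_right₀ hE1 (card_Jx n Z J)
          _ = E ^ 3 * (E ^ 2) ^ Z.card * (E ^ 2) ^ J.card := by
              rw [pow_add, pow_add, pow_mul, pow_mul]
      calc 54 * (1 + r) * (2 * (2 + 4 * ((2 : ℕ) : ℝ))) ^ Z.card * (2 * (2 * (N : ℝ))) ^ (Jx n Z J).card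
          ≤ 54 * (1 + r) * (2 * (2 + 4 * ((2 : ℕ) : ℝ))) ^ Z.card *
            (E ^ 3 * (E ^ 2) ^ Z.card * (E ^ 2) ^ J.card) :=
            mul_le_mul_of_nonneg_left h1' (by positivity)
        _ = K * ((2 * (2 + 4 * ((2 : ℕ) : ℝ))) ^ Z.card * (E ^ 2) ^ Z.card) * (E ^ 2) ^ J.card := by
            rw [hK]
            ring
        _ ≤ K * (|a| ^ 5) ^ Z.card * (E ^ 2) ^ J.card := by
            gcongr
  · -- non long
    intro l hl1 hln hlJ s hs
    obtain ⟨g1, g2, g3, g4, g5⟩ := notMem_Jx hln hlJ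
    by_contra hcon
    push Not at hcon
    have e1 := hout (l + 1) (by omega) g2 s hs
    have e2 := hout (l + 2) (by omega) g3 s hs
    rw [hsnd l s, mul_comm |vv a ((F a)^[l + 1] (ln b t s)).1|] at e1
    rw [hsnd (l + 1) s, mul_comm |vv a ((F a)^[l + 1 + 1] (ln b t s)).1|] at e2
    rcases Pool.Agent.Helper72.EN.long3 (B := 100) (r := r) (C := 4 * 10 ^ 12) hb hb1 (by norm_num)
      (by rw [hra]; norm_num) (by rw [hra]; norm_num) (by norm_num) (by linarith) e1 e2 hcon with h | h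
    · exact g4 ((hs.2.2 (l + 2) (Finset.mem_Icc.2 ⟨by omega, by omega⟩)).1 h)
    · exact g5 ((hs.2.2 (l + 3) (Finset.mem_Icc.2 ⟨by omega, by omega⟩)).1 h)
  · -- out
    intro l hl hlZ
    refine out_step hb hb1 hR2 hS1 l fun x hx => ?_
    have e1 := hout l hl hlZ x hx
    rw [(xc_real a b t l x).1, vc_real, Complex.norm_real, Real.norm_eq_abs, h5r]
    have h2 : |vv a ((F a)^[l] (ln b t x)).2| ≤ 8 * |a| := by
      have h3 := vv_abs a ((F a)^[l] (ln b t x)).2
      have h4 := Real.pi_lt_d2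
      nlinarith
    have h3 : 4 * 10 ^ 12 * |a| ≤ |vv a ((F a)^[l] (ln b t x)).1| * (8 * |a|) :=
      e1.trans (mul_le_mul_of_nonneg_left h2 (abs_nonneg _))
    have h4 : 5 * 10 ^ 11 ≤ |vv a ((F a)^[l] (ln b t x)).1| := by
      by_contra hcon
      rw [not_le] at hcon
      nlinarith
    have h5 : √(130 : ℝ) ≤ 12 := by
      rw [Real.sqrt_le_left (by norm_num)]
      norm_num
    linarith
  · -- in
    intro l hl
    have hρ : √(2 * (5 * r) / |a|) ≤ r := by
      rw [Real.sqrt_le_left hr0.le, div_le_iff₀ ha0]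
      have : r ^ 2 * |a| = r * (r * |a|) := by ring
      rw [this, hra]
      linarith
    have h1 := in_of_pre (t := t) hb hb1 ha1 hr0 (S := S) (k := l) hM hρ (fun s _ => hbd l s)
      (fun Y hY => in_pre hb hb1 hR2 hS1 l hY)
    refine h1.trans (le_of_eq ?_)
    congr 1
    rw [ENNReal.ofReal_add (by norm_num) (by positivity), ENNReal.ofReal_mul (by norm_num),
      ENNReal.ofReal_natCast]
    norm_num
  · -- disjoint components
    intro l hl
    refine (hN b t hb hb1 hbd hosc S l).trans ?_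
    rw [ENNReal.ofReal_mul (by norm_num), ENNReal.ofReal_natCast]
    have e : ENNReal.ofReal 2 = 2 := by norm_num
    rw [e]
    calc (N : ENNReal) * (2 * mm (xc a b t (l + 1)) S (5 * r) + pp (xc a b t (l + 1)) S r)
        ≤ (N : ENNReal) * (2 * mm (xc a b t (l + 1)) S (5 * r) + 2 * pp (xc a b t (l + 1)) S r) := by
          gcongr
          calc pp (xc a b t (l + 1)) S r = 1 * pp (xc a b t (l + 1)) S r := (one_mul _).symm
            _ ≤ 2 * pp (xc a b t (l + 1)) S r := by gcongr; norm_num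
      _ = 2 * N * (mm (xc a b t (l + 1)) S (5 * r) + pp (xc a b t (l + 1)) S r) := by ring

theorem linePart : LinePart := by
  refine ⟨4 * 10 ^ 12 + 10, 10 ^ 20, 5, by norm_num, fun a ha => ?_⟩
  refine ⟨zn a (4 * 10 ^ 12 * |a|), Pool.Agent.Helper46.EN.zone_zn2 a _, ?_,
    fun b hb hb1 => class_est ha hb hb1⟩
  exact Pool.Agent.Helper46.EN.vol_zn2 (by norm_num) a (by linarith)

end Pool.Agent.Helper18.EP
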