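import Pool.Agent.Helper18.UY.BadT
import Pool.Agent.Helper18.UY.Fams

/-! Project EP (MP_9ee088_an), torus part with a zone of the plane (two consecutive coordinates of the orbit). -/

set_option autoImplicit false
open MeasureTheory Real Set Filter

namespace Pool.Agent.Helper18.EP

open Pool.Agent.Helper18.UC Pool.Agent.Helper18.UY

/-- a measurable zone of the plane, invariant under integer translations and under the swap -/
structure Zone (W : Set (ℝ × ℝ)) : Prop where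
  meas : MeasurableSet W
  per : ∀ (q : ℝ × ℝ) (k l : ℤ), sh q k l ∈ W ↔ q ∈ W
  swap : ∀ q : ℝ × ℝ, Prod.swap q ∈ W ↔ q ∈ W

/-- number of visits of the first `n` points of the orbit of `q` to the zone -/
noncomputable def vis (a : ℝ) (W : Set (ℝ × ℝ)) (n : ℕ) (q : ℝ × ℝ) : ℝ :=
  ∑ j ∈ Finset.range n, W.indicator (fun _ => (1 : ℝ)) ((F a)^[j] q)

/-- points with few visits -/
def VQ (a : ℝ) (W : Set (ℝ × ℝ)) (κ : ℝ) (N : ℕ) : Set T2 := {z | vis a W N (rep z) ≤ κ * N}

/-- the estimate of the classes of points of the lines with slope `b` with given visit times and given long times -/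
def ClassEst (a b B : ℝ) (W : Set (ℝ × ℝ)) (C K D : ℝ) : Prop :=
  ∀ (t : ℝ) (n : ℕ) (c : ℝ) (Z J : Finset ℕ), Z ⊆ Finset.range n → J ⊆ Finset.Icc 1 n →
    volume {s : ℝ | s ∈ Icc (0 : ℝ) 1 ∧ Real.exp (c * n) ≤ V a b n (ln b t s) ∧
      (∀ j < n, (F a)^[j] (ln b t s) ∈ W ↔ j ∈ Z) ∧
      ∀ l ∈ Finset.Icc 1 n, Long a b B l t s ↔ l ∈ J} ≤
    ENNReal.ofReal (K * C ^ Z.card * D ^ J.card * Real.exp (-(c * n)))

/-- the consequence on the torus -/
def BadE (a b B : ℝ) (W : Set (ℝ × ℝ)) (c κ θ : ℝ) : Prop :=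
  Tendsto (fun N : ℕ => volume ((PV a b c N ∩ VQ a W κ N) \ FQ a b B θ N)) atTop (nhds 0)

/-- the critical zone -/
def zn (a H : ℝ) : Set (ℝ × ℝ) := {q | |vv a q.1| * |vv a q.2| < H}

end Pool.Agent.Helper18.EP
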