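import Pool.Agent.Helper18.EP.Freq
import Pool.Agent.Helper18.UY.Sums
import Pool.Agent.Helper18.UC.Eig

/-! Block EP-POS: two positive sets of points with enough exponent against their frequencies of visits meet. -/

set_option autoImplicit false
open MeasureTheory Real Set Filter Topology

namespace Pool.Agent.Helper18.EP

open Pool.Agent.Helper18.UC Pool.Agent.Helper18.UY

variable {a : ℝ} {S : T2 → T2} {W : Set (ℝ × ℝ)}

/-- the data needed for the families -/
structure DataE (a b B : ℝ) (W : Set (ℝ × ℝ)) (c c' κ κ' θ : ℝ) : Prop where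
  hB : 100 ≤ B
  hc : 0 < c'
  hcc : c' < c
  hκ : κ < κ'
  hθ : 0 < θ
  hθ1 : θ ≤ 1
  dir : Tendsto (fun N : ℕ => volume {z : T2 | V a b N (rep z) * (N + 1) ^ 2 < nn (M a N (rep z))})
      atTop (nhds 0)
  bad : BadE a b B W c' κ' θ

/-- points with lower exponent greater than `c` and upper frequency of visits less than `κ` -/
def Om (a : ℝ) (W : Set (ℝ × ℝ)) (c κ : ℝ) : Set T2 := om a c ∩ vu a W κ

theorem measurableSet_Om (hW : Zone W) (c κ : ℝ) : MeasurableSet (Om a W c κ) :=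
  (measurableSet_om a c).inter (measurableSet_vu a hW κ)

theorem Om_inv (hS : IsS a S) (hW : Zone W) (c κ : ℝ) : S ⁻¹' (Om a W c κ) = Om a W c κ := by
  unfold Om
  rw [Set.preimage_inter, om_inv hS, vu_inv hS hW]

/-- a set of points which are eventually in `Q N` -/
private theorem tendsto_diff {Q : ℕ → Set T2} (hQ : ∀ N, MeasurableSet (Q N)) {Ω : Set T2}
    (hΩ : MeasurableSet Ω) (hP : ∀ z ∈ Ω, ∀ᶠ N : ℕ in atTop, z ∈ Q N) :
    Tendsto (fun N => volume (Ω \ Q N)) atTop (nhds 0) := by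
  have h := tendsto_measure_of_tendsto_indicator_of_isFiniteMeasure (L := atTop)
    (As := fun N => Ω \ Q N) (A := (∅ : Set T2)) (volume : Measure T2)
    (fun N => hΩ.diff (hQ N))
    (by
      intro x
      by_cases hx : x ∈ Ω
      · filter_upwards [hP x hx] with N hN
        constructor
        · intro h
          exact absurd hN h.2
        · intro h
          exact absurd h (Set.notMem_empty x)
      · refine Eventually.of_forall fun N => ?_
        constructor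
        · intro h
          exact absurd h.1 hx
        · intro h
          exact absurd h (Set.notMem_empty x))
  rwa [measure_empty] at h

private theorem tendsto_FQE {b B c κ θ : ℝ} {E : Set T2}
    (hT : Tendsto (fun N => volume (E \ PV a b c N)) atTop (nhds 0))
    (hQ : Tendsto (fun N => volume (E \ VQ a W κ N)) atTop (nhds 0))
    (hb : BadE a b B W c κ θ) :
    Tendsto (fun N => volume (E \ FQ a b B θ N)) atTop (nhds 0) := by
  have hsum := (hT.add hQ).add hb
  rw [add_zero, add_zero] at hsum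
  refine tendsto_of_tendsto_of_tendsto_of_le_of_le tendsto_const_nhds hsum
    (fun N => zero_le) (fun N => ?_)
  refine (measure_mono ?_).trans ((measure_union_le _ _).trans
    (add_le_add (measure_union_le (E \ PV a b c N) (E \ VQ a W κ N)) le_rfl))
  intro z hz
  by_cases h1 : z ∈ PV a b c N
  · by_cases h2 : z ∈ VQ a W κ N
    · exact Or.inr ⟨⟨h1, h2⟩, hz.2⟩
    · exact Or.inl (Or.inr ⟨hz.1, h2⟩)
  · exact Or.inl (Or.inl ⟨hz.1, h1⟩)

theorem VQ_mono {κ κ' : ℝ} (h : κ ≤ κ') (N : ℕ) : VQ a W κ N ⊆ VQ a W κ' N := by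
  intro z hz
  have h1 : vis a W N (rep z) ≤ κ * N := hz
  exact h1.trans (mul_le_mul_of_nonneg_right h (Nat.cast_nonneg N))

theorem famE_fwd (hW : Zone W) {b B c c' κ κ' θ : ℝ} (hd : DataE a b B W c c' κ κ' θ)
    {E : Set T2} (hE : MeasurableSet E)
    (hEΩ : E ⊆ Om a W c κ) {η ε : ℝ} (hη : 0 < η) (hε : 0 < ε) (n1 : ℕ) :
    ∃ (n : ℕ) (𝒬 : Set (Set T2)), n1 ≤ n ∧ FamL a b B n E η 𝒬 ∧
      θ * volume.real E - ε ≤ volume.real (⋃₀ 𝒬) := by
  have hB0 : 0 < B := by linarith [hd.hB]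
  have h1 : Tendsto (fun N => volume (E \ PN a c N)) atTop (nhds 0) :=
    tendsto_diff (measurableSet_PN a c) hE fun z hz => om_PN c z (hEΩ hz).1
  have h2 := tendsto_PV hd.hcc h1 hd.dir
  have h3 : Tendsto (fun N => volume (E \ VQ a W κ' N)) atTop (nhds 0) :=
    tendsto_diff (measurableSet_VQ a hW κ') hE fun z hz =>
      (vu_VQ κ z (hEΩ hz).2).mono fun N hN => VQ_mono hd.hκ.le N hN
  exact coreY hd.hB hd.hc hd.hθ.le hd.hθ1 hE h2 (tendsto_FQE h2 h3 hd.bad) hη hε n1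

theorem famE_bwd (hS : IsS a S) (hW : Zone W) {b B c c' κ κ' θ : ℝ} (hd : DataE a b B W c c' κ κ' θ)
    {E : Set T2} (hE : MeasurableSet E) (hEΩ : E ⊆ Om a W c κ) {η ε : ℝ} (hη : 0 < η)
    (hε : 0 < ε) (n1 : ℕ) :
    ∃ (n : ℕ) (𝒬 : Set (Set T2)), n1 ≤ n ∧ FamL a b B n (Prod.swap ⁻¹' E) η 𝒬 ∧
      θ * volume.real E - ε ≤ volume.real (⋃₀ 𝒬) := by
  have hsw : MeasurePreserving (Prod.swap : T2 → T2) volume volume :=
    Measure.measurePreserving_swap
  have hEm : MeasurableSet (Prod.swap ⁻¹' E) := measurable_swap hE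
  have hvol : volume.real (Prod.swap ⁻¹' E) = volume.real E := by
    rw [measureReal_def, measureReal_def, hsw.measure_preimage hE.nullMeasurableSet]
  set Ω := Om a W c κ with hΩd
  have hΩ : MeasurableSet Ω := measurableSet_Om hW c κ
  have hinv : S ⁻¹' Ω = Ω := Om_inv hS hW c κ
  have hit : ∀ N : ℕ, S^[N] ⁻¹' Ω = Ω := by
    intro N
    induction N with
    | zero => rfl
    | succ N ih => rw [Function.iterate_succ', Set.preimage_comp, hinv, ih]
  have hmem : ∀ (N : ℕ) (z : T2), z ∈ Prod.swap ⁻¹' E → Prod.swap (S^[N] z) ∈ Ω := by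
    intro N z hz
    rw [← hit N]
    show S^[N] (Prod.swap (S^[N] z)) ∈ Ω
    rw [S_rev hS]
    exact hEΩ hz
  have gen : ∀ Q Q' : ℕ → Set T2, (∀ N, MeasurableSet (Q N)) →
      (∀ z ∈ Ω, ∀ᶠ N : ℕ in atTop, z ∈ Q N) →
      (∀ᶠ N : ℕ in atTop, ∀ z : T2, Prod.swap (S^[N] z) ∈ Q N → z ∈ Q' N) →
      Tendsto (fun N => volume ((Prod.swap ⁻¹' E) \ Q' N)) atTop (nhds 0) := by
    intro Q Q' hQm hQ hQr
    refine tendsto_of_tendsto_of_tendsto_of_le_of_le' tendsto_const_nhds (tendsto_diff hQm hΩ hQ)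
      (Eventually.of_forall fun N => zero_le) ?_
    filter_upwards [hQr] with N hQr
    have hΘ : MeasurePreserving (fun z : T2 => Prod.swap (S^[N] z)) volume volume :=
      hsw.comp ((S_mp hS).iterate N)
    have h1 : volume ((fun z : T2 => Prod.swap (S^[N] z)) ⁻¹' (Ω \ Q N)) =
        volume (Ω \ Q N) :=
      hΘ.measure_preimage (hΩ.diff (hQm N)).nullMeasurableSet
    rw [← h1]
    refine measure_mono fun z hz => ⟨hmem N z hz.1, fun h2 => hz.2 (hQr z h2)⟩
  have key : Tendsto (fun N => volume ((Prod.swap ⁻¹' E) \ PN a c N)) atTop (nhds 0) := by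
    refine gen (PN a c) _ (measurableSet_PN a c) (fun z hz => om_PN c z hz.1)
      (Eventually.of_forall fun N z h2 => ?_)
    have h3 : Real.exp (c * N) ≤ nn (M a N (rep (Prod.swap (S^[N] z)))) := h2
    rw [nn_rep_rev hS] at h3
    exact h3
  have key2 : Tendsto (fun N => volume ((Prod.swap ⁻¹' E) \ VQ a W κ' N)) atTop (nhds 0) := by
    have hκ := hd.hκ
    have hev : ∀ᶠ N : ℕ in atTop, 1 ≤ (κ' - κ) * N := by
      have h1 : Tendsto (fun N : ℕ => (κ' - κ) * (N : ℝ)) atTop atTop :=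
        tendsto_natCast_atTop_atTop.const_mul_atTop (by linarith)
      exact h1.eventually_ge_atTop _
    refine gen (VQ a W κ) _ (measurableSet_VQ a hW κ) (fun z hz => vu_VQ κ z hz.2) ?_
    filter_upwards [hev] with N hN z h2
    have h3 : vis a W N (rep (Prod.swap (S^[N] z))) ≤ κ * N := h2
    have h4 := vis_rep_rev hS hW N (Prod.swap (S^[N] z))
    rw [S_rev hS, Prod.swap_swap] at h4
    show vis a W N (rep z) ≤ κ' * N
    linarith
  have h2 := tendsto_PV hd.hcc key hd.dir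
  have := coreY hd.hB hd.hc hd.hθ.le hd.hθ1 hEm h2 (tendsto_FQE h2 key2 hd.bad) hη hε n1
  rwa [hvol] at this

private lemma real_pos {E : Set T2} (h : volume E ≠ 0) : 0 < volume.real E :=
  ENNReal.toReal_pos h (measure_ne_top _ _)

theorem posE (hS : IsS a S) (hW : Zone W) {b B c c' κ κ' θ d d' ρ ρ' θ' : ℝ}
    (hd : DataE a b B W c c' κ κ' θ) (hd' : DataE a b B W d d' ρ ρ' θ') (ha : 10 ≤ |a|)
    {E E' : Set T2}
    (hE : MeasurableSet E) (hEΩ : E ⊆ Om a W c κ) (hE' : MeasurableSet E')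
    (hEΩ' : E' ⊆ Om a W d ρ) (hm : volume E ≠ 0) (hm' : volume E' ≠ 0) :
    ∃ N : ℕ, volume (E ∩ S^[N] ⁻¹' E') ≠ 0 ∧ volume (E ∩ S^[N + 1] ⁻¹' E') ≠ 0 := by
  have hB := hd.hB
  have hμ := real_pos hm
  have hμ' := real_pos hm'
  set μ := volume.real E with hμd
  set μ' := volume.real E' with hμd'
  have hL := LL_ge a
  have hBp : 0 < B := by linarith
  set β : ℝ := 1 / (20 * B ^ 2 * LL a) with hb
  have hb0 : 0 < β := by positivity
  have hθ0 := hd.hθ
  have hθ0' := hd'.hθ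
  have hx : 0 < θ * μ / 2 := by positivity
  have hx' : 0 < θ' * μ' / 2 := by positivity
  set x := θ * μ / 2 with hxd
  set x' := θ' * μ' / 2 with hxd'
  set η : ℝ := β * (x * x') / 4 with hη
  have hη0 : 0 < η := by positivity
  obtain ⟨n, 𝒬, hn, hF, hh⟩ := famE_fwd hW hd hE hEΩ hη0 hx 1
  obtain ⟨n', 𝒬', hn', hF', hh'⟩ := famE_bwd hS hW hd' hE' hEΩ' hη0 hx' 1
  rw [← hμd] at hh
  rw [← hμd'] at hh'
  have k1 : x ≤ volume.real (⋃₀ 𝒬) := by linarith
  have k2 : x' ≤ volume.real (⋃₀ 𝒬') := by linarith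
  have k3 : x * x' ≤ volume.real (⋃₀ 𝒬) * volume.real (⋃₀ 𝒬') :=
    mul_le_mul k1 k2 hx'.le (hx.le.trans k1)
  have k4 : β ≤ 1 / (20 * B ^ 2 * LL a ^ 0) := by
    rw [hb, pow_zero, mul_one]
    apply one_div_le_one_div_of_le (by positivity)
    have : 0 ≤ 20 * B ^ 2 := by positivity
    nlinarith
  have k5 : β = 1 / (20 * B ^ 2 * LL a ^ 1) := by rw [hb, pow_one]
  have s0 := sum_low hS hB ha hE hE' hη0.le hF hF' (j := 0) (by norm_num)
  have s1 := sum_low hS hB ha hE hE' hη0.le hF hF' (j := 1) le_rfl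
  rw [← k5] at s1
  have p0 : 0 < x * x' := mul_pos hx hx'
  have k6 : β * (x * x') ≤ β * (volume.real (⋃₀ 𝒬) * volume.real (⋃₀ 𝒬')) :=
    mul_le_mul_of_nonneg_left k3 hb0.le
  have k7 : β * (volume.real (⋃₀ 𝒬) * volume.real (⋃₀ 𝒬')) ≤
      1 / (20 * B ^ 2 * LL a ^ 0) * (volume.real (⋃₀ 𝒬) * volume.real (⋃₀ 𝒬')) :=
    mul_le_mul_of_nonneg_right k4 (p0.le.trans k3)
  have k8 : 0 < β * (x * x') := mul_pos hb0 p0
  refine ⟨n + n', fun h0 => ?_, fun h0 => ?_⟩
  · have e : volume.real (E ∩ S^[n + 0 + n'] ⁻¹' E') = 0 := by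
      rw [add_zero, measureReal_def, h0, ENNReal.toReal_zero]
    rw [e] at s0
    linarith
  · have e : volume.real (E ∩ S^[n + 1 + n'] ⁻¹' E') = 0 := by
      rw [show n + 1 + n' = n + n' + 1 by ring, measureReal_def, h0, ENNReal.toReal_zero]
    rw [e] at s1
    linarith

/-- the index set of the union: rational pairs (exponent, frequency) for which the line part works -/
def Ix (a b B : ℝ) (W : Set (ℝ × ℝ)) : Set (ℚ × ℚ) :=
  {p | ∃ c' κ' θ : ℝ, DataE a b B W p.1 c' p.2 κ' θ}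

/-- the component -/
def OO (a b B : ℝ) (W : Set (ℝ × ℝ)) : Set T2 := ⋃ p ∈ Ix a b B W, Om a W p.1 p.2

theorem measurableSet_OO (hW : Zone W) (b B : ℝ) : MeasurableSet (OO a b B W) :=
  MeasurableSet.biUnion (Set.to_countable _) fun p _ => measurableSet_Om hW _ _

theorem OO_inv (hS : IsS a S) (hW : Zone W) (b B : ℝ) : S ⁻¹' (OO a b B W) = OO a b B W := by
  unfold OO
  rw [Set.preimage_iUnion₂]
  refine Set.iUnion₂_congr fun p _ => Om_inv hS hW _ _

/-- a positive subset of the union meets a member of the union in a positive set -/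
private theorem exists_ix (hW : Zone W) {b B : ℝ} {E : Set T2} (hE : MeasurableSet E)
    (hEO : E ⊆ OO a b B W) (hm : volume E ≠ 0) :
    ∃ p ∈ Ix a b B W, volume (E ∩ Om a W p.1 p.2) ≠ 0 := by
  by_contra hcon
  push Not at hcon
  apply hm
  have h1 : E ⊆ ⋃ p ∈ Ix a b B W, E ∩ Om a W p.1 p.2 := by
    intro z hz
    obtain ⟨p, hp, hz'⟩ := mem_iUnion₂.1 (hEO hz)
    exact mem_iUnion₂.2 ⟨p, hp, hz, hz'⟩
  exact measure_mono_null h1 ((measure_biUnion_null_iff (Set.to_countable _)).2 hcon)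

theorem posO (hS : IsS a S) (hW : Zone W) {b B : ℝ} (ha : 10 ≤ |a|)
    {E E' : Set T2} (hE : MeasurableSet E) (hE' : MeasurableSet E') (hEO : E ⊆ OO a b B W)
    (hEO' : E' ⊆ OO a b B W) (hm : volume E ≠ 0) (hm' : volume E' ≠ 0) :
    ∃ N : ℕ, volume (E ∩ S^[N] ⁻¹' E') ≠ 0 ∧ volume (E ∩ S^[N + 1] ⁻¹' E') ≠ 0 := by
  obtain ⟨p, ⟨c', κ', θ, hd⟩, hp⟩ := exists_ix hW hE hEO hm
  obtain ⟨p', ⟨d', ρ', θ', hd'⟩, hp'⟩ := exists_ix hW hE' hEO' hm'
  obtain ⟨N, h1, h2⟩ := posE hS hW hd hd' ha (hE.inter (measurableSet_Om hW _ _))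
    inter_subset_right (hE'.inter (measurableSet_Om hW _ _)) inter_subset_right hp hp'
  refine ⟨N, fun h => h1 (measure_mono_null ?_ h), fun h => h2 (measure_mono_null ?_ h)⟩
  · exact Set.inter_subset_inter inter_subset_left (Set.preimage_mono inter_subset_left)
  · exact Set.inter_subset_inter inter_subset_left (Set.preimage_mono inter_subset_left)

end Pool.Agent.Helper18.EP
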